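import Pool.Agent.H38.Jump.Proof

open Pool.Agent.H38.GJ

theorem Pool.Agent.Results.MP_9b97c3_lc.Neg.result
    (X : Type) [TopologicalSpace X] [PolishSpace X] [Nontrivial X]
    (G H K : Type) [Group G] [Group H] [Group K] [Countable G] [Countable H] [Countable K]
    [Infinite G] [Infinite H] :
    ¬ BorelRed (Jump H (Jump G (Eq : X → X → Prop))) (Jump K (Eq : X → X → Prop)) :=
  main
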